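import Pool.Agent.Zk73.AK.J

/-! # Which slopes give a nontrivial exponent in the arithmetic Kakeya inequality

For slopes `s_0, …, s_k` (and `∞`) consider the inequality
`|π₋₁(A)| ≤ max (|π_∞(A)|, max_i |π_{s_i}(A)|) ^ κ` for all finite `A ⊂ ℤ × ℤ`. One slope gives `κ = 2`. Which
slopes give `κ < 2`, uniformly?

Let `d_i = s_i - s_0` for `1 ≤ i ≤ k`. The slopes are `L`-simple if there are homogeneous polynomials
`a`, `b` with integer coefficients in `k` variables, `deg a = deg b + 1`, `deg b ≤ L`, with coefficients
of absolute value at most `L`, such that `b(d) ≠ 0` and `s_0 + 1 = a(d) / b(d)`: the target `-1` is a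
simple function of the slopes, invariant under affine maps. (All rational slopes are `L`-simple for
some `L` unless all of them are equal and different from `-1`; for `k = 1` the condition says that
`(s_0 + 1) / (s_1 - s_0)` is a quotient of integers at most `L`.)

1. For all `k` and `L` there is `κ < 2` such that all `L`-simple slopes `s_0, …, s_k` satisfy the
   inequality with the exponent `κ`.
2. For all `k` and `κ < 2` there is `L` such that all slopes `s_0, …, s_k` which satisfy the inequality
   with the exponent `κ`, even up to a constant factor, are `L`-simple.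

So a family of `(k+1)`-tuples of slopes has a common exponent `κ < 2` if and only if its members are
`L`-simple for some `L`, and `κ → 2` along every sequence of tuples which are not.

Idea of the proof. 1. Replace `A` by a set of points with different values of `x - y`. If it has
`M ^ 2 / K` points and the projections have at most `M`, a graph lemma gives `W ⊆ π_{s_0}(A)` and
`Y ⊆ π_∞(A)` such that `A` has `≥ M ^ 2 / (12 K ^ 2)` points over `W × Y` and all sums `W + d_i Y` have
at most `2 ^ 15 K ^ 5 M` elements. By Ruzsa's covering lemma and Plünnecke's inequality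
`b(d) W - a(d) Y` has at most `K ^ {C(k, L)} M` elements, but it contains the numbers
`b(d) (w - (s_0 + 1) y)` for these points, which are different. So `K` is at least a power of `M`.
The constants are removed by passing to powers of `A`. 2. Let `D` be the set of the values of the
polynomials with exponents `< n` and coefficients in `{0, …, m - 1}` at `u d`, where `u` is generic.
If there is no relation as above, the numbers `w - (s_0 + 1) u y` with `w`, `y` in `D` are different, by
comparing the homogeneous parts. By the pigeonhole principle `|D + u d_i D| ≤ |D| ^ {1 + 2 η}` for some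
`n ≤ n_0(k, η)`, for all `i` at once, and powers of the set `{(w - s_0 u y, u y)}` are not compatible with
an exponent `κ < 2 / (1 + 2 η)`. -/

set_option autoImplicit false

open Finset

namespace Pool.Agent.Zk73.Keep.SimpleSlopes

/-- the projection `π_r(A) = {x + r y : (x, y) ∈ A}` -/
def proj (r : ℚ) (A : Finset (ℤ × ℤ)) : Finset ℚ :=
  A.image (fun p : ℤ × ℤ => (p.1 : ℚ) + r * (p.2 : ℚ))

/-- the projection `π_∞(A) = {y : (x, y) ∈ A}` -/
def projInf (A : Finset (ℤ × ℤ)) : Finset ℚ := A.image (fun p : ℤ × ℤ => (p.2 : ℚ))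

/-- the largest size of a projection of `A` with slope `∞` or in `S` -/
def big (S : Finset ℚ) (A : Finset (ℤ × ℤ)) : ℕ :=
  max (projInf A).card (S.sup fun r => (proj r A).card)

/-- The slopes `s_0, …, s_k` are `L`-simple: with `d_i = s_i - s_0`, `(s_0 + 1) b(d) = a(d)` and
`b(d) ≠ 0` for homogeneous polynomials `a`, `b` of degrees `e + 1`, `e`, `e ≤ L`, with integer coefficients of
absolute value at most `L`. -/
def Simple {k : ℕ} (L : ℕ) (s : Fin (k + 1) → ℚ) : Prop :=
  ∃ (e : ℕ) (a b : MvPolynomial (Fin k) ℤ), e ≤ L ∧ a.IsHomogeneous (e + 1) ∧ b.IsHomogeneous e ∧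
    (∀ μ, |a.coeff μ| ≤ L) ∧ (∀ μ, |b.coeff μ| ≤ L) ∧
    MvPolynomial.aeval (fun i => s i.succ - s 0) b ≠ 0 ∧
    MvPolynomial.aeval (fun i => s i.succ - s 0) a =
      (s 0 + 1) * MvPolynomial.aeval (fun i => s i.succ - s 0) b

theorem result (k : ℕ) :
    -- 1. simple slopes are useful
    (∀ L : ℕ, ∃ κ : ℝ, κ < 2 ∧ ∀ s : Fin (k + 1) → ℚ, Simple L s → ∀ A : Finset (ℤ × ℤ),
      ((proj (-1) A).card : ℝ) ≤ (big (univ.image s) A : ℝ) ^ κ) ∧
    -- 2. useful slopes are simple
    (∀ κ : ℝ, κ < 2 → ∃ L : ℕ, ∀ s : Fin (k + 1) → ℚ,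
      (∃ C : ℝ, ∀ A : Finset (ℤ × ℤ),
        ((proj (-1) A).card : ℝ) ≤ C * (big (univ.image s) A : ℝ) ^ κ) → Simple L s) := by
  refine ⟨fun L => ?_, fun κ hκ => ?_⟩
  · obtain ⟨κ, h1, h2⟩ := Pool.Agent.Zk73.AK.part1 k L
    exact ⟨κ, h1, fun s hs A => h2 s hs A⟩
  · obtain ⟨L, hL⟩ := Pool.Agent.Zk73.AK.part2 k κ hκ
    exact ⟨L, fun s hs => hL s hs⟩

end Pool.Agent.Zk73.Keep.SimpleSlopes
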