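import Mathlib
import Pool.Agent.Zk73.AK.M

/-! # Two slopes in the arithmetic Kakeya inequality: the order of the gain

For two different rational slopes `s_0`, `s_1` (and `∞`) let `κ(s_0, s_1)` be the least exponent in
`|π₋₁(A)| ≤ C max (|π_∞(A)|, |π_{s_0}(A)|, |π_{s_1}(A)|) ^ κ`. Let `H` be the height of the
cross ratio `(s_0 + 1) / (s_1 - s_0)`, that is the larger one of the absolute values of the numerator
and the denominator. Then

`2 - 2 log 2 / log (2 H) ≤ κ(s_0, s_1) ≤ 2 - 1 / (324 log (2 H))`,

and even `κ(s_0, s_1) ≥ 2 log H / log (2 H - 1)` if `H ≥ 2`. So the gain over the trivial exponent `2`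
is of the order `1 / log (2 H)` exactly.

Idea of the proof. Upper bound: replace `A` by a set of points with different values of `x - y`. If it
has `M ^ 2 / K` points and the projections have at most `M`, a graph lemma gives `W ⊆ π_{s_0}(A)` and
`Y ⊆ π_∞(A)` such that `A` has many points over `W × Y` and `W + (s_1 - s_0) Y` has at most
`2 ^ 15 K ^ 5 M` elements. If `(s_0 + 1) / (s_1 - s_0) = a / b`, the numbers `b w - a (s_1 - s_0) y` are
different for the points of `A` over `W × Y`. By Ruzsa's covering lemma, `2 W` is covered by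
`K ^ O(1)` translates of `W - W`, and going through the binary digits of `a` and `b` one gets that there
are at most `K ^ O(log (2 H)) M` such numbers. The constants are removed by passing to powers of
`A`. Lower bound: the integers with `n` digits `0, …, H - 1` in a large base `u`; the numbers
`b x - a u y` are different, since `b c = a c'` with `|c|, |c'| < H` only for `c = c' = 0`, but there are
only `(2 H - 1) ^ (n + 1)` sums `x + u y`. -/

set_option autoImplicit false

open Finset

namespace Pool.Agent.Zk73.Keep.TwoSlopes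

/-- the projection `π_r(A) = {x + r y : (x, y) ∈ A}` -/
def proj (r : ℚ) (A : Finset (ℤ × ℤ)) : Finset ℚ :=
  A.image (fun p : ℤ × ℤ => (p.1 : ℚ) + r * (p.2 : ℚ))

/-- the projection `π_∞(A) = {y : (x, y) ∈ A}` -/
def projInf (A : Finset (ℤ × ℤ)) : Finset ℚ := A.image (fun p : ℤ × ℤ => (p.2 : ℚ))

/-- the largest size of a projection of `A` with slope `∞`, `s0` or `s1` -/
def big (s0 s1 : ℚ) (A : Finset (ℤ × ℤ)) : ℕ :=
  max (projInf A).card (max (proj s0 A).card (proj s1 A).card)

/-- the height of the cross ratio `(s_0 + 1) / (s_1 - s_0)` of the slopes -/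
def height (s0 s1 : ℚ) : ℕ :=
  max ((s0 + 1) / (s1 - s0)).num.natAbs ((s0 + 1) / (s1 - s0)).den

lemma big_eq (s0 s1 : ℚ) (A : Finset (ℤ × ℤ)) :
    Pool.Agent.R470.AK.big {s0, s1} A = big s0 s1 A := by
  unfold Pool.Agent.R470.AK.big big
  rw [Finset.sup_insert, Finset.sup_singleton]
  rfl

theorem result (s0 s1 : ℚ) (hs : s0 ≠ s1) :
    -- 1. the upper bound
    (∀ A : Finset (ℤ × ℤ), ((proj (-1) A).card : ℝ) ≤
      (big s0 s1 A : ℝ) ^ (2 - 1 / (324 * Real.log (2 * height s0 s1)) : ℝ)) ∧
    -- 2. the lower bound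
    (∀ κ : ℝ, (∃ C : ℝ, ∀ A : Finset (ℤ × ℤ), ((proj (-1) A).card : ℝ) ≤ C * (big s0 s1 A : ℝ) ^ κ) →
      2 * Real.log (height s0 s1) ≤ κ * Real.log (2 * height s0 s1 - 1)) := by
  set q : ℚ := (s0 + 1) / (s1 - s0) with hq
  set H : ℕ := height s0 s1 with hH
  have hHe : H = max q.num.natAbs q.den := rfl
  have hH1 : 1 ≤ H := by
    rw [hHe]
    exact q.den_pos.trans_le (le_max_right _ _)
  have hd : s1 - s0 ≠ 0 := sub_ne_zero.2 hs.symm
  have hb0 : (q.den : ℤ) ≠ 0 := by exact_mod_cast q.den_nz
  have hrel : (((q.den : ℤ) : ℤ) : ℚ) * (s0 + 1) = (q.num : ℚ) * (s1 - s0) := by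
    have h1 : q * (s1 - s0) = s0 + 1 := by
      rw [hq]
      field_simp
    have h2 : (q.den : ℚ) * q = q.num := by
      rw [mul_comm]
      exact Rat.mul_den_eq_num q
    rw [← h1, ← h2]
    push_cast
    ring
  have hcop : IsCoprime q.num (q.den : ℤ) := by
    rw [Int.isCoprime_iff_gcd_eq_one]
    have := q.reduced
    rw [Int.gcd, Int.natAbs_natCast]
    exact this
  refine ⟨fun A => ?_, fun κ hκ => ?_⟩
  · rcases A.eq_empty_or_nonempty with hA | hA
    · subst hA
      have : (proj (-1) (∅ : Finset (ℤ × ℤ))).card = 0 := by simp [proj]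
      rw [this]
      push_cast
      exact Real.rpow_nonneg (Nat.cast_nonneg _) _
    · set t : ℕ := Nat.log 2 H + 1 with ht
      have hlt : H < 2 ^ t := Nat.lt_pow_succ_log_self (by norm_num) H
      have ha : |q.num| < 2 ^ t := by
        rw [Int.abs_eq_natAbs]
        have : q.num.natAbs ≤ H := by rw [hHe]; exact le_max_left _ _
        exact_mod_cast this.trans_lt hlt
      have hb : |(q.den : ℤ)| < 2 ^ t := by
        rw [abs_of_nonneg (Int.natCast_nonneg _)]
        have : q.den ≤ H := by rw [hHe]; exact le_max_right _ _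
        exact_mod_cast this.trans_lt hlt
      have h1 := Pool.Agent.Zk73.AK.pair_upper s0 s1 q.num q.den t (by omega) ha hb hb0 hrel A hA
      rw [big_eq] at h1
      have h2 : (1 : ℝ) ≤ big s0 s1 A := by
        rw [← big_eq]
        exact_mod_cast Pool.Agent.R470.AK.big_pos hA
      refine h1.trans (Real.rpow_le_rpow_of_exponent_le h2 ?_)
      -- the exponent
      have hHR : (1 : ℝ) ≤ H := by exact_mod_cast hH1
      have hl2 : (0.6931471803 : ℝ) < Real.log 2 := Real.log_two_gt_d9
      have hl0 : 0 < Real.log (2 * H) := Real.log_pos (by linarith)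
      have h3 : (t : ℝ) * Real.log 2 ≤ Real.log (2 * H) := by
        have h4 : ((2 : ℝ) ^ t) ≤ 2 * H := by
          have h5 : 2 ^ (Nat.log 2 H) ≤ H := Nat.pow_log_le_self 2 (by omega)
          have h6 : 2 ^ t ≤ 2 * H := by
            rw [ht, pow_succ']
            omega
          exact_mod_cast h6
        have h7 := Real.log_le_log (by positivity) h4
        rwa [Real.log_pow] at h7
      have ht0 : (0 : ℝ) < t := by exact_mod_cast Nat.succ_pos _
      have h4 : 224 * (t : ℝ) ≤ 324 * Real.log (2 * H) := by nlinarith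
      have h5 := one_div_le_one_div_of_le (by positivity) h4
      linarith
  · rcases Nat.lt_or_ge H 2 with h2 | h2
    · have h3 : H = 1 := by omega
      rw [h3]
      norm_num
    · have hor : (H : ℤ) ≤ |q.num| ∨ (H : ℤ) ≤ |(q.den : ℤ)| := by
        rw [hHe, Int.abs_eq_natAbs, abs_of_nonneg (Int.natCast_nonneg _)]
        rcases le_total q.num.natAbs q.den with h | h
        · right
          rw [max_eq_right h]
        · left
          rw [max_eq_left h]
      refine Pool.Agent.Zk73.AK.pair_lower s0 s1 hs q.num q.den hcop hrel H h2 hor κ ?_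
      obtain ⟨C, hC⟩ := hκ
      refine ⟨C, fun A => ?_⟩
      rw [big_eq]
      exact hC A

end Pool.Agent.Zk73.Keep.TwoSlopes
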